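import Pool.Agent.ABC3.Stmts

set_option autoImplicit false

/-!
Row ANN of squad ABC3: the cap has no free summand.
-/

namespace Pool.Agent.ABC3

namespace AnnA

open Matrix

section gen
variable {K Q B : Type} [Field K] [AddCommGroup Q] [Module K Q] [Fintype B] [DecidableEq B]

theorem homV_act (S : Sys K Q B) (q : Q) {d : ℤ} {v : B → K} (hv : HomV S.deg d v) :
    HomV S.deg (d + 1) ((S.act q).mulVec v) := by
  intro s hs
  rw [Matrix.mulVec, dotProduct] at hs
  obtain ⟨s', _, h⟩ := Finset.exists_ne_zero_of_sum_ne_zero hs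
  have h1 : S.act q s s' ≠ 0 := fun h' => h (by simp [h'])
  have h2 : v s' ≠ 0 := fun h' => h (by simp [h'])
  rw [S.hdeg q s s' h1, hv s' h2]

/-- product of the squares of a list -/
def PiL (S : Sys K Q B) (L : List Q) : Matrix B B K := (L.map (fun q => S.act q * S.act q)).prod

/-- iterated relative trace -/
def iTr (S : Sys K Q B) (g0 : Matrix B B K) (L : List Q) : Matrix B B K :=
  L.foldr (fun q g => Tr S q g) g0

theorem iTr_cons (S : Sys K Q B) (g0 : Matrix B B K) (q : Q) (L : List Q) :
    iTr S g0 (q :: L) = Tr S q (iTr S g0 L) := rfl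

theorem PiL_cons (S : Sys K Q B) (q : Q) (L : List Q) :
    PiL S (q :: L) = S.act q * S.act q * PiL S L := by
  simp [PiL]

theorem act_PiL (S : Sys K Q B) (q : Q) (L : List Q) :
    S.act q * PiL S L = PiL S L * S.act q := by
  have : Commute (S.act q) (PiL S L) := by
    apply Commute.list_prod_right
    intro x hx
    rw [List.mem_map] at hx
    obtain ⟨p, _, rfl⟩ := hx
    have h : Commute (S.act q) (S.act p) := S.comm q p
    exact h.mul_right h
  exact this

theorem Tr_mulVec (S : Sys K Q B) (q : Q) (g : Matrix B B K) (x : B → K) :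
    (Tr S q g).mulVec x = (S.act q).mulVec ((S.act q).mulVec (g.mulVec x)) +
      (S.act q).mulVec (g.mulVec ((S.act q).mulVec x)) +
      g.mulVec ((S.act q).mulVec ((S.act q).mulVec x)) := by
  simp only [Tr, Matrix.add_mulVec, Matrix.mulVec_mulVec, Matrix.mul_assoc]

theorem homV_PiL (S : Sys K Q B) (L : List Q) {d : ℤ} {v : B → K} (hv : HomV S.deg d v) :
    HomV S.deg (d + 2 * (L.length : ℤ)) ((PiL S L).mulVec v) := by
  induction L with
  | nil => simpa [PiL] using hv
  | cons q L ih =>
    rw [PiL_cons, Matrix.mul_assoc, ← Matrix.mulVec_mulVec, ← Matrix.mulVec_mulVec]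
    have h := homV_act S q (homV_act S q ih)
    have e : d + 2 * (L.length : ℤ) + 1 + 1 = d + 2 * ((q :: L).length : ℤ) := by
      rw [List.length_cons]; push_cast; ring
    rwa [e] at h

theorem iTr_low (S : Sys K Q B) (g0 : Matrix B B K) (E : ℤ)
    (h0 : ∀ e x, e < E → HomV S.deg e x → g0.mulVec x = 0) (L : List Q) :
    (∀ e x, e < E - 2 * (L.length : ℤ) → HomV S.deg e x → (iTr S g0 L).mulVec x = 0) ∧
    (∀ x, HomV S.deg (E - 2 * (L.length : ℤ)) x →
      (iTr S g0 L).mulVec x = g0.mulVec ((PiL S L).mulVec x)) := by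
  induction L with
  | nil =>
    refine ⟨fun e x he hx => h0 e x (by simpa using he) hx, fun x _ => ?_⟩
    simp [iTr, PiL]
  | cons q L ih =>
    obtain ⟨ih1, ih2⟩ := ih
    have hlen : ((q :: L).length : ℤ) = (L.length : ℤ) + 1 := by
      rw [List.length_cons]; push_cast; ring
    rw [hlen]
    constructor
    · intro e x he hx
      rw [iTr_cons, Tr_mulVec, ih1 e x (by linarith) hx,
        ih1 (e + 1) _ (by linarith) (homV_act S q hx),
        ih1 (e + 1 + 1) _ (by linarith) (homV_act S q (homV_act S q hx))]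
      simp
    · intro x hx
      have hx2 := homV_act S q (homV_act S q hx)
      have e : E - 2 * ((L.length : ℤ) + 1) + 1 + 1 = E - 2 * (L.length : ℤ) := by ring
      rw [e] at hx2
      rw [iTr_cons, Tr_mulVec, ih1 _ x (by linarith) hx,
        ih1 _ _ (by linarith) (homV_act S q hx), ih2 _ hx2, PiL_cons]
      have hc : PiL S L * S.act q * S.act q = S.act q * S.act q * PiL S L := by
        rw [Matrix.mul_assoc (S.act q), act_PiL, ← Matrix.mul_assoc, act_PiL]
      rw [← hc]
      simp [Matrix.mulVec_mulVec, Matrix.mul_assoc]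

theorem act_Tr (S : Sys K Q B) (q : Q) (g : Matrix B B K) :
    S.act q * Tr S q g = Tr S q g * S.act q := by
  have h := S.cube q
  have e1 : S.act q * Tr S q g = S.act q * S.act q * S.act q * g + S.act q * S.act q * g * S.act q
      + S.act q * g * S.act q * S.act q := by
    unfold Tr; noncomm_ring
  have e2 : Tr S q g * S.act q = S.act q * S.act q * g * S.act q
      + S.act q * g * S.act q * S.act q + g * (S.act q * S.act q * S.act q) := by
    unfold Tr; noncomm_ring
  rw [e1, e2, h]
  simp

theorem act_Tr' (S : Sys K Q B) (p q : Q) (g : Matrix B B K) (h : S.act p * g = g * S.act p) :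
    S.act p * Tr S q g = Tr S q g * S.act p := by
  have h1 : Commute (S.act p) (S.act q) := S.comm p q
  have h2 : Commute (S.act p) g := h
  have h3 : Commute (S.act p) (Tr S q g) := by
    unfold Tr
    exact ((((h1.mul_right h1).mul_right h2).add_right ((h1.mul_right h2).mul_right h1)).add_right
      ((h2.mul_right h1).mul_right h1))
  exact h3

theorem act_iTr (S : Sys K Q B) (g0 : Matrix B B K) (L : List Q) :
    ∀ q ∈ L, S.act q * iTr S g0 L = iTr S g0 L * S.act q := by
  induction L with
  | nil => intro q hq; simp at hq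
  | cons p L ih =>
    intro q hq
    rw [iTr_cons]
    rcases List.mem_cons.1 hq with rfl | hq
    · exact act_Tr S q _
    · exact act_Tr' S q p _ (ih q hq)

theorem deg_iTr (trd : ∀ (k : ℤ) (S : Sys K Q B) q g, HasDeg S.deg k g → HasDeg S.deg (k + 2) (Tr S q g))
    (S : Sys K Q B) (g0 : Matrix B B K) (k : ℤ) (h0 : HasDeg S.deg k g0) (L : List Q) :
    HasDeg S.deg (k + 2 * (L.length : ℤ)) (iTr S g0 L) := by
  induction L with
  | nil => simpa [iTr] using h0
  | cons p L ih =>
    rw [iTr_cons]
    have h := trd _ S p _ ih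
    have e : k + 2 * (L.length : ℤ) + 2 = k + 2 * ((p :: L).length : ℤ) := by
      rw [List.length_cons]; push_cast; ring
    rwa [e] at h

theorem com_top (S : Sys K Q B) {κ : Type} (b : Module.Basis κ K Q) (f : Matrix B B K)
    (h : ∀ i, S.act (b i) * f = f * S.act (b i)) : Com S ⊤ f := by
  let W : Submodule K Q :=
    { carrier := {q | S.act q * f = f * S.act q}
      add_mem' := by
        intro p q hp hq
        simp only [Set.mem_ofPred_eq] at hp hq ⊢
        rw [map_add, Matrix.add_mul, Matrix.mul_add, hp, hq]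
      zero_mem' := by simp
      smul_mem' := by
        intro a q hq
        simp only [Set.mem_ofPred_eq] at hq ⊢
        rw [map_smul, Matrix.smul_mul, Matrix.mul_smul, hq] }
  have hW : W = ⊤ := by
    rw [eq_top_iff, ← b.span_eq, Submodule.span_le]
    rintro _ ⟨i, rfl⟩
    exact h i
  intro p _
  have : p ∈ W := by rw [hW]; trivial
  exact this

theorem hasDeg_mul {deg : B → ℤ} {k l : ℤ} {M N : Matrix B B K} (hM : HasDeg deg k M)
    (hN : HasDeg deg l N) : HasDeg deg (k + l) (M * N) := by
  intro s s' hs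
  rw [Matrix.mul_apply] at hs
  obtain ⟨j, _, h⟩ := Finset.exists_ne_zero_of_sum_ne_zero hs
  have h1 : M s j ≠ 0 := fun h' => h (by simp [h'])
  have h2 : N j s' ≠ 0 := fun h' => h (by simp [h'])
  rw [hM s j h1, hN j s' h2]
  ring

theorem com_mul {S : Sys K Q B} {P : Submodule K Q} {M N : Matrix B B K} (hM : Com S P M)
    (hN : Com S P N) : Com S P (M * N) := by
  intro p hp
  rw [← Matrix.mul_assoc, hM p hp, Matrix.mul_assoc, hN p hp, Matrix.mul_assoc]

end gen

end AnnA

open AnnA Matrix in
theorem ann (trc : TRCStmt) (sqr : SQRStmt) : ANNStmt := by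
  intro K Q B _ _ _ _ _ _ _ S hn hchi e he d v hv hev
  obtain ⟨ht1, hmul⟩ := hchi
  obtain ⟨hee, hed, hec, hetr, hecap⟩ := he
  obtain ⟨T1, -, T3, -, -, -⟩ := trc K Q B S
  -- reduction to the product of the squares of a basis
  set n := Module.finrank K Q with hnd
  let b : Module.Basis (Fin n) K Q := Module.finBasis K Q
  intro l _ hl
  rw [finrank_top] at hl
  refine sqr K Q B S n b v ?_ l hl
  by_contra hne
  let L : List Q := List.ofFn b
  have hLlen : L.length = n := by simp [L]
  have hPi : (List.ofFn (fun i => S.act (b i) * S.act (b i))).prod = PiL S L := by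
    unfold PiL
    simp only [L]
    rw [List.map_ofFn]
    rfl
  rw [hPi] at hne
  obtain ⟨s0, hs0⟩ : ∃ s0, ((PiL S L).mulVec v) s0 ≠ 0 := by
    by_contra hcon
    push Not at hcon
    exact hne (funext hcon)
  have hdeg0 : S.deg s0 = d + 2 * (n : ℤ) := by
    have h := homV_PiL S L hv s0 hs0
    rwa [hLlen] at h
  set c := ((PiL S L).mulVec v) s0 with hc
  let g0 : Matrix B B K := fun s s' => if s' = s0 then c⁻¹ * v s else 0
  have hg0v : ∀ x : B → K, g0.mulVec x = (c⁻¹ * x s0) • v := by
    intro x
    funext s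
    show ∑ s', g0 s s' * x s' = _
    rw [Finset.sum_eq_single s0]
    · simp [g0]; ring
    · intro s' _ hs'
      simp [g0, hs']
    · intro h; exact absurd (Finset.mem_univ _) h
  have hg0d : HasDeg S.deg (-(2 * (n : ℤ))) g0 := by
    intro s s' hs
    have h1 : s' = s0 := by
      by_contra h
      exact hs (by simp [g0, h])
    have h2 : v s ≠ 0 := by
      intro h
      exact hs (by simp [g0, h])
    rw [h1, hdeg0, hv s h2]
    ring
  have h0 : ∀ e x, e < d + 2 * (n : ℤ) → HomV S.deg e x → g0.mulVec x = 0 := by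
    intro e x he hx
    rw [hg0v]
    have : x s0 = 0 := by
      by_contra h
      have := hx s0 h
      rw [hdeg0] at this
      linarith
    simp [this]
  let f := iTr S g0 L
  have hfv : f.mulVec v = v := by
    have h := (iTr_low S g0 (d + 2 * (n : ℤ)) h0 L).2 v (by
      rw [hLlen]
      have : d + 2 * (n : ℤ) - 2 * (n : ℤ) = d := by ring
      rwa [this])
    show (iTr S g0 L).mulVec v = v
    rw [h, hg0v, ← hc, inv_mul_cancel₀ hs0, one_smul]
  have hfd : HasDeg S.deg 0 f := by
    have h := deg_iTr (fun k S' q g => (trc K Q B S').2.2.1 k q g) S g0 _ hg0d L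
    rw [hLlen] at h
    have : -(2 * (n : ℤ)) + 2 * (n : ℤ) = 0 := by ring
    rwa [this] at h
  have hfc : Com S ⊤ f := by
    apply com_top S b
    intro i
    exact act_iTr S g0 L (b i) (by simp [L])
  have hftr : Matrix.trace f = 0 := by
    have : L ≠ [] := by
      intro h
      have := congrArg List.length h
      rw [hLlen] at this
      simp at this
      omega
    obtain ⟨q, L', hq⟩ := List.exists_cons_of_ne_nil this
    show Matrix.trace (iTr S g0 L) = 0
    rw [hq, iTr_cons]
    exact T1 q _
  -- the operator f'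
  have hfe_d : HasDeg S.deg 0 (f * e) := by simpa using hasDeg_mul hfd hed
  have hefe_d : HasDeg S.deg 0 (e * (f * e)) := by simpa using hasDeg_mul hed hfe_d
  have hfe_c : Com S ⊤ (f * e) := com_mul hfc hec
  have hefe_c : Com S ⊤ (e * (f * e)) := com_mul hec hfe_c
  have htr1 : Matrix.trace (f * e) = 0 := by
    have h := hmul f e hfd hfc hed hec
    rw [hftr, zero_mul] at h
    exact (mul_eq_zero.1 h).resolve_right ht1
  have htr2 : Matrix.trace (e * (f * e)) = 0 := by
    have h := hmul e (f * e) hed hec hfe_d hfe_c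
    rw [htr1, mul_zero] at h
    exact (mul_eq_zero.1 h).resolve_right ht1
  let f' := e - e * (f * e)
  have hf'd : HasDeg S.deg 0 f' := by
    intro s s' hs
    by_cases h1 : e s s' = 0
    · apply hefe_d s s'
      intro h2
      apply hs
      show e s s' - (e * (f * e)) s s' = 0
      rw [h1, h2, sub_zero]
    · exact hed s s' h1
  have hf'c : Com S ⊤ f' := by
    intro p hp
    show S.act p * (e - e * (f * e)) = (e - e * (f * e)) * S.act p
    rw [Matrix.mul_sub, Matrix.sub_mul, hec p hp, hefe_c p hp]
  have hf'tr : Matrix.trace f' ≠ 0 := by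
    show Matrix.trace (e - e * (f * e)) ≠ 0
    rw [Matrix.trace_sub, htr2, sub_zero]
    exact hetr
  obtain ⟨α, β, -, -, hab⟩ := hecap f' hf'd hf'c hf'tr
  have hf'e : f' * e = f' := by
    show (e - e * (f * e)) * e = e - e * (f * e)
    rw [Matrix.sub_mul, hee, Matrix.mul_assoc e, Matrix.mul_assoc f, hee]
  have hf'v : f'.mulVec v = 0 := by
    show (e - e * (f * e)).mulVec v = 0
    rw [Matrix.sub_mulVec, ← Matrix.mulVec_mulVec, ← Matrix.mulVec_mulVec, hev, hfv, hev, sub_self]
  -- kernels
  have hker : LinearMap.ker e.mulVecLin ≤ LinearMap.ker f'.mulVecLin := by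
    intro x hx
    rw [LinearMap.mem_ker, Matrix.mulVecLin_apply] at hx ⊢
    rw [← hf'e, ← Matrix.mulVec_mulVec, hx, Matrix.mulVec_zero]
  have hrank : Module.finrank K (LinearMap.range e.mulVecLin) ≤
      Module.finrank K (LinearMap.range f'.mulVecLin) := by
    have h1 : e.rank ≤ f'.rank := by
      calc e.rank = (α * f' * β).rank := by rw [hab]
        _ ≤ (α * f').rank := Matrix.rank_mul_le_left _ _
        _ ≤ f'.rank := Matrix.rank_mul_le_right _ _
    exact h1
  have e1 := LinearMap.finrank_range_add_finrank_ker e.mulVecLin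
  have e2 := LinearMap.finrank_range_add_finrank_ker f'.mulVecLin
  have hkk : LinearMap.ker e.mulVecLin = LinearMap.ker f'.mulVecLin := by
    apply Submodule.eq_of_le_of_finrank_le hker
    omega
  have hv0 : v = 0 := by
    have : v ∈ LinearMap.ker e.mulVecLin := by
      rw [hkk, LinearMap.mem_ker, Matrix.mulVecLin_apply]
      exact hf'v
    rw [LinearMap.mem_ker, Matrix.mulVecLin_apply, hev] at this
    exact this
  apply hne
  rw [hv0, Matrix.mulVec_zero]

end Pool.Agent.ABC3
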